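import Mathlib

/-!
Weighted partition sums with parts `1!, 2!, 3!`: the case `m = 3`, `k = 2` violates the claimed
sign pattern `(-1)^n`.
-/

namespace Pool.Agent.Results.MP_e74e95_nt.WrongSigns

open Finset

/-- `c_A(i, n)`: the number of partitions of `n` with all parts in `A` and exactly `i` parts. -/
def c (A : Finset ℕ) (i n : ℕ) : ℕ :=
  Fintype.card {p : Nat.Partition n // (∀ x ∈ p.parts, x ∈ A) ∧ Multiset.card p.parts = i}

/-- `S_{A,k}(n) = ∑_{i=0}^{n} (-1)^i i^k c_A(i, n)`. -/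
def S (A : Finset ℕ) (k n : ℕ) : ℤ :=
  ∑ i ∈ range (n + 1), (-1 : ℤ) ^ i * (i : ℤ) ^ k * (c A i n : ℤ)

/-- `U_m = {1!, 2!, ..., m!}`. -/
def U (m : ℕ) : Finset ℕ := (Finset.Icc 1 m).image Nat.factorial

/-- The statement of the question. -/
def Q1 : Prop :=
  ∀ m : ℕ, 2 ≤ m →
    (∀ k : ℕ, k ≤ m - 2 → ∃ N : ℕ, ∀ n : ℕ, N ≤ n → 0 ≤ (-1 : ℤ) ^ ((n + 1) / 2) * S (U m) k n) ∧
    (∀ k : ℕ, m - 1 ≤ k → ∃ N : ℕ, ∀ n : ℕ, N ≤ n → 0 ≤ (-1 : ℤ) ^ n * S (U m) k n)

theorem U3 : U 3 = {1, 2, 6} := by decide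

theorem S_eq (A : Finset ℕ) (k n : ℕ) :
    S A k n = ∑ p ∈ (Finset.univ : Finset (Nat.Partition n)).filter (fun p => ∀ x ∈ p.parts, x ∈ A),
      (-1 : ℤ) ^ (Multiset.card p.parts) * (Multiset.card p.parts : ℤ) ^ k := by
  unfold S
  have hc : ∀ i : ℕ, (c A i n : ℤ) =
      ∑ p ∈ (Finset.univ : Finset (Nat.Partition n)).filter (fun p => ∀ x ∈ p.parts, x ∈ A),
        if Multiset.card p.parts = i then (1 : ℤ) else 0 := by
    intro i
    rw [Finset.sum_ite, Finset.sum_const_zero, add_zero, Finset.sum_const, nsmul_eq_mul, mul_one,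
      Finset.filter_filter, c, Fintype.card_subtype]
  simp_rw [hc, Finset.mul_sum]
  rw [Finset.sum_comm]
  apply Finset.sum_congr rfl
  intro p _
  have hcard : Multiset.card p.parts ≤ n := by
    have h1 : ∀ s : Multiset ℕ, (∀ x ∈ s, 1 ≤ x) → Multiset.card s ≤ s.sum := by
      intro s
      induction s using Multiset.induction_on with
      | empty => intro _; simp
      | cons a s ih =>
        intro h
        rw [Multiset.card_cons, Multiset.sum_cons]
        have := ih (fun x hx => h x (Multiset.mem_cons_of_mem hx))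
        have := h a (Multiset.mem_cons_self a s)
        omega
    have := h1 p.parts (fun x hx => p.parts_pos hx)
    rwa [p.parts_sum] at this
  rw [Finset.sum_eq_single (Multiset.card p.parts)]
  · simp
  · intro b _ hb
    rw [if_neg (fun h => hb h.symm), mul_zero]
  · intro h
    exfalso
    apply h
    rw [mem_range]; omega

/-- a multiset with elements in `{1, 2, 6}` -/
theorem ms_eq (s : Multiset ℕ) (h : ∀ x ∈ s, x ∈ ({1, 2, 6} : Finset ℕ)) :
    s = Multiset.replicate (s.count 1) 1 + Multiset.replicate (s.count 2) 2 +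
      Multiset.replicate (s.count 6) 6 := by
  ext x
  rw [Multiset.count_add, Multiset.count_add, Multiset.count_replicate, Multiset.count_replicate,
    Multiset.count_replicate]
  by_cases hx : x ∈ s
  · have h2 := h x hx
    simp only [Finset.mem_insert, Finset.mem_singleton] at h2
    rcases h2 with rfl | rfl | rfl <;> simp
  · rw [Multiset.count_eq_zero_of_notMem hx]
    have e1 : ∀ y : ℕ, (if y = x then s.count y else 0) = 0 := by
      intro y
      split_ifs with h'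
      · subst h'; exact Multiset.count_eq_zero_of_notMem hx
      · rfl
    rw [e1, e1, e1]

/-- the partition with `b` parts `2`, `c` parts `6` and the remaining parts `1` -/
def mk (n b c : ℕ) (h : 2 * b + 6 * c ≤ n) : Nat.Partition n where
  parts := Multiset.replicate (n - 2 * b - 6 * c) 1 + Multiset.replicate b 2 +
    Multiset.replicate c 6
  parts_pos := by
    intro i hi
    rw [Multiset.mem_add, Multiset.mem_add] at hi
    rcases hi with (h1 | h1) | h1 <;> rw [Multiset.eq_of_mem_replicate h1] <;> norm_num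
  parts_sum := by
    simp only [Multiset.sum_add, Multiset.sum_replicate, smul_eq_mul]
    omega

theorem mk_count2 (n b c : ℕ) (h : 2 * b + 6 * c ≤ n) : (mk n b c h).parts.count 2 = b := by
  simp [mk, Multiset.count_replicate]

theorem mk_count6 (n b c : ℕ) (h : 2 * b + 6 * c ≤ n) : (mk n b c h).parts.count 6 = c := by
  simp [mk, Multiset.count_replicate]

theorem S_U3 (k j : ℕ) :
    S (U 3) k (12 * j + 2) =
      ∑ c ∈ range (2 * j + 1), ∑ b ∈ range (6 * j + 2 - 3 * c),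
        (-1 : ℤ) ^ (12 * j + 2 - b - 5 * c) * ((12 * j + 2 - b - 5 * c : ℕ) : ℤ) ^ k := by
  rw [S_eq, U3, Finset.sum_sigma']
  symm
  apply Finset.sum_bij (fun (q : (_ : ℕ) × ℕ) hq => mk (12 * j + 2) q.2 q.1 (by
    rw [Finset.mem_sigma, mem_range, mem_range] at hq; omega))
  · intro q hq
    rw [Finset.mem_filter]
    refine ⟨Finset.mem_univ _, ?_⟩
    intro x hx
    unfold mk at hx
    rw [Multiset.mem_add, Multiset.mem_add] at hx
    rcases hx with (h1 | h1) | h1 <;> rw [Multiset.eq_of_mem_replicate h1] <;> decide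
  · rintro ⟨c1, b1⟩ h1 ⟨c2, b2⟩ h2 heq
    have e2 := congrArg (fun p : Nat.Partition (12 * j + 2) => p.parts.count 2) heq
    have e6 := congrArg (fun p : Nat.Partition (12 * j + 2) => p.parts.count 6) heq
    simp only [mk_count2, mk_count6] at e2 e6
    subst e2; subst e6; rfl
  · intro p hp
    rw [Finset.mem_filter] at hp
    have hs := ms_eq p.parts hp.2
    have hsum := p.parts_sum
    rw [hs] at hsum
    simp only [Multiset.sum_add, Multiset.sum_replicate, smul_eq_mul] at hsum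
    refine ⟨⟨p.parts.count 6, p.parts.count 2⟩, ?_, ?_⟩
    · rw [Finset.mem_sigma, mem_range, mem_range]; constructor <;> simp only <;> omega
    · apply Nat.Partition.ext
      show Multiset.replicate (12 * j + 2 - 2 * p.parts.count 2 - 6 * p.parts.count 6) 1 +
        Multiset.replicate (p.parts.count 2) 2 + Multiset.replicate (p.parts.count 6) 6 = p.parts
      have e1 : 12 * j + 2 - 2 * p.parts.count 2 - 6 * p.parts.count 6 = p.parts.count 1 := by
        omega
      rw [e1]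
      exact hs.symm
  · rintro ⟨c1, b1⟩ h1
    rw [Finset.mem_sigma, mem_range, mem_range] at h1
    simp only at h1
    have hcard : Multiset.card (mk (12 * j + 2) b1 c1 (by omega)).parts =
        12 * j + 2 - b1 - 5 * c1 := by
      simp only [mk, Multiset.card_add, Multiset.card_replicate]
      omega
    simp only [hcard]

theorem inner_odd (N : ℤ) (q : ℕ) :
    ∑ b ∈ range (2 * q + 2), (-1 : ℤ) ^ b * (N - b) ^ 2 = (q + 1) * (2 * N - 1 - 2 * q) := by
  induction q with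
  | zero => simp [Finset.sum_range_succ]; ring
  | succ q ih =>
    rw [show 2 * (q + 1) + 2 = 2 * q + 2 + 1 + 1 by ring, Finset.sum_range_succ,
      Finset.sum_range_succ, ih]
    have e1 : (-1 : ℤ) ^ (2 * q + 2) = 1 := by
      rw [show 2 * q + 2 = 2 * (q + 1) by ring, pow_mul]; norm_num
    have e2 : (-1 : ℤ) ^ (2 * q + 2 + 1) = -1 := by rw [pow_succ, e1]; norm_num
    rw [e1, e2]
    push_cast
    ring

theorem inner_even (N : ℤ) (q : ℕ) :
    ∑ b ∈ range (2 * q + 1), (-1 : ℤ) ^ b * (N - b) ^ 2 =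
      (N - 2 * q) ^ 2 + q * (2 * N + 1 - 2 * q) := by
  have h := inner_odd N q
  rw [Finset.sum_range_succ] at h
  have e1 : (-1 : ℤ) ^ (2 * q + 1) = -1 := by
    rw [pow_succ, pow_mul]; norm_num
  rw [e1] at h
  push_cast at h
  linarith [h]

theorem sign_eq (j b c : ℕ) (h : b + 5 * c ≤ 12 * j + 2) :
    (-1 : ℤ) ^ (12 * j + 2 - b - 5 * c) = (-1) ^ c * (-1) ^ b := by
  have h1 : (-1 : ℤ) ^ (12 * j + 2 - b - 5 * c) * ((-1) ^ c * (-1) ^ b) = 1 := by
    rw [← pow_add, ← pow_add]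
    have : 12 * j + 2 - b - 5 * c + (c + b) = 2 * (6 * j + 1 - 2 * c) := by omega
    rw [this, pow_mul]; norm_num
  have h2 : ((-1 : ℤ) ^ c * (-1) ^ b) * ((-1) ^ c * (-1) ^ b) = 1 := by
    rw [← pow_add, ← pow_add]
    have : c + b + (c + b) = 2 * (c + b) := by ring
    rw [this, pow_mul]; norm_num
  calc (-1 : ℤ) ^ (12 * j + 2 - b - 5 * c)
      = (-1 : ℤ) ^ (12 * j + 2 - b - 5 * c) * (((-1 : ℤ) ^ c * (-1) ^ b) * ((-1) ^ c * (-1) ^ b)) := by
        rw [h2, mul_one]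
    _ = ((-1 : ℤ) ^ (12 * j + 2 - b - 5 * c) * ((-1) ^ c * (-1) ^ b)) * ((-1) ^ c * (-1) ^ b) := by
        ring
    _ = _ := by rw [h1, one_mul]

theorem inner_eq (j c : ℕ) (hc : c < 2 * j + 1) :
    ∑ b ∈ range (6 * j + 2 - 3 * c),
        (-1 : ℤ) ^ (12 * j + 2 - b - 5 * c) * ((12 * j + 2 - b - 5 * c : ℕ) : ℤ) ^ 2 =
      (-1) ^ c * ∑ b ∈ range (6 * j + 2 - 3 * c),
        (-1 : ℤ) ^ b * (((12 * j + 2 - 5 * c : ℕ) : ℤ) - b) ^ 2 := by
  rw [Finset.mul_sum]
  apply Finset.sum_congr rfl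
  intro b hb
  rw [mem_range] at hb
  rw [sign_eq j b c (by omega)]
  have : ((12 * j + 2 - b - 5 * c : ℕ) : ℤ) = ((12 * j + 2 - 5 * c : ℕ) : ℤ) - b := by omega
  rw [this]
  ring

/-- value of a pair of consecutive outer terms, indexed from the end -/
theorem outer (j : ℕ) : ∀ D : ℕ, D ≤ j →
    ∑ c ∈ range (2 * D), ((-1 : ℤ) ^ c * ∑ b ∈ range (6 * j + 2 - 3 * c),
        (-1 : ℤ) ^ b * (((12 * j + 2 - 5 * c : ℕ) : ℤ) - b) ^ 2) =
      ∑ d ∈ range D, ((3 * ((j : ℤ) - d) + 1) * (18 * j - 14 * d + 3) -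
        ((6 * (j : ℤ) - 4 * d - 1) ^ 2 + (3 * ((j : ℤ) - d) - 1) * (18 * j - 14 * d - 3))) := by
  intro D
  induction D with
  | zero => intro _; simp
  | succ D ih =>
    intro hD
    rw [show 2 * (D + 1) = 2 * D + 1 + 1 by ring, Finset.sum_range_succ, Finset.sum_range_succ,
      ih (by omega), Finset.sum_range_succ]
    have e1 : (-1 : ℤ) ^ (2 * D) = 1 := by rw [pow_mul]; norm_num
    have e2 : (-1 : ℤ) ^ (2 * D + 1) = -1 := by rw [pow_succ, e1]; norm_num
    have r1 : 6 * j + 2 - 3 * (2 * D) = 2 * (3 * (j - D)) + 2 := by omega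
    have r2 : 6 * j + 2 - 3 * (2 * D + 1) = 2 * (3 * (j - D) - 1) + 1 := by omega
    rw [e1, e2, r1, r2, inner_odd, inner_even]
    have c1 : ((3 * (j - D) : ℕ) : ℤ) = 3 * ((j : ℤ) - D) := by omega
    have c2 : ((3 * (j - D) - 1 : ℕ) : ℤ) = 3 * ((j : ℤ) - D) - 1 := by omega
    have c3 : ((12 * j + 2 - 5 * (2 * D) : ℕ) : ℤ) = 12 * (j : ℤ) + 2 - 10 * D := by omega
    have c4 : ((12 * j + 2 - 5 * (2 * D + 1) : ℕ) : ℤ) = 12 * (j : ℤ) - 3 - 10 * D := by omega
    rw [c1, c2, c3, c4]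
    ring

theorem closed (j : ℤ) (D : ℕ) :
    3 * ∑ d ∈ range D, ((3 * (j - d) + 1) * (18 * j - 14 * d + 3) -
        ((6 * j - 4 * (d : ℤ) - 1) ^ 2 + (3 * (j - d) - 1) * (18 * j - 14 * d - 3))) =
      162 * j * D - 69 * D * (D - 1) - 3 * D * (6 * j - 1) ^ 2 +
        12 * (6 * j - 1) * D * (D - 1) - 8 * (D - 1) * D * (2 * D - 1) := by
  induction D with
  | zero => simp
  | succ D ih =>
    rw [Finset.sum_range_succ, mul_add, ih]
    push_cast
    ring

/-- exact value of the sum for `m = 3`, `k = 2` and `n = 12 j + 2` -/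
theorem value (j : ℕ) :
    3 * S (U 3) 2 (12 * j + 2) = -52 * (j : ℤ) ^ 3 + 69 * (j : ℤ) ^ 2 + 82 * j + 9 := by
  rw [S_U3]
  have h1 : ∑ c ∈ range (2 * j + 1), ∑ b ∈ range (6 * j + 2 - 3 * c),
        (-1 : ℤ) ^ (12 * j + 2 - b - 5 * c) * ((12 * j + 2 - b - 5 * c : ℕ) : ℤ) ^ 2 =
      ∑ c ∈ range (2 * j + 1), ((-1 : ℤ) ^ c * ∑ b ∈ range (6 * j + 2 - 3 * c),
        (-1 : ℤ) ^ b * (((12 * j + 2 - 5 * c : ℕ) : ℤ) - b) ^ 2) := by
    apply Finset.sum_congr rfl
    intro c hc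
    rw [mem_range] at hc
    exact inner_eq j c hc
  rw [h1, Finset.sum_range_succ, outer j j le_rfl]
  have e1 : (-1 : ℤ) ^ (2 * j) = 1 := by rw [pow_mul]; norm_num
  have r1 : 6 * j + 2 - 3 * (2 * j) = 2 * 0 + 2 := by omega
  rw [e1, r1, inner_odd]
  have c1 : ((12 * j + 2 - 5 * (2 * j) : ℕ) : ℤ) = 2 * (j : ℤ) + 2 := by omega
  rw [c1, mul_add, closed]
  push_cast
  ring

/-- For `m = 3`, `k = 2` and every `j ≥ 3` the sum `S_{U_3,2}(12 j + 2)` is negative although
`12 j + 2` is even; hence the claimed eventual sign pattern `(-1)^n` for all `k ≥ m - 1` fails. -/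
theorem result : (∀ j : ℕ, 3 ≤ j → S (U 3) 2 (12 * j + 2) < 0) ∧ ¬ Q1 := by
  have h1 : ∀ j : ℕ, 3 ≤ j → S (U 3) 2 (12 * j + 2) < 0 := by
    intro j hj
    have h := value j
    have hj' : (3 : ℤ) ≤ j := by exact_mod_cast hj
    nlinarith [mul_nonneg (sub_nonneg.mpr hj') (sub_nonneg.mpr hj'),
      mul_nonneg (mul_nonneg (sub_nonneg.mpr hj') (sub_nonneg.mpr hj')) (sub_nonneg.mpr hj')]
  refine ⟨h1, ?_⟩
  intro hQ
  obtain ⟨N, hN⟩ := (hQ 3 (by norm_num)).2 2 (by norm_num)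
  have h2 := hN (12 * (N + 3) + 2) (by omega)
  have h3 := h1 (N + 3) (by omega)
  have e : (-1 : ℤ) ^ (12 * (N + 3) + 2) = 1 := by
    rw [show 12 * (N + 3) + 2 = 2 * (6 * (N + 3) + 1) by ring, pow_mul]; norm_num
  rw [e, one_mul] at h2
  omega

end Pool.Agent.Results.MP_e74e95_nt.WrongSigns
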